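import Pool.Agent.Y192.KC.ZDefs
import Pool.Agent.Y220.OG.Lgt

/-! KZ11: logarithmic general type of algebraic extensions, general boundary condition. -/

set_option autoImplicit false

open FF Pool.Agent.W602.GT Pool.Agent.W603.LV Pool.Agent.TH143.GT Pool.Agent.Y220.OG

namespace Pool.Agent.Y547.KZ

/-- the local estimates -/
theorem lgt_local {k K : Type} [Field k] [CharZero k] [Field K] [Algebra k K]
    [Algebra.EssFiniteType k K] {n d : ℕ} (y : Fin (n + 1) → K) (B : Place k K → Prop)
    (hy : ∀ i, y i ≠ 0)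
    (htr : Algebra.trdeg k K = d) {N : ℕ}
    (f : Fin (d + 1) → K) (t : Fin d → K) (ht : IsTranscendenceBasis k t)
    (hty : ∀ b, ∃ i, t b = y i / y 0)
    (hlog : ∀ v : Place k K, Divisorial d v → ∀ j, LogAt v (fun D => jac t D ^ N * f j))
    (hreg : ∀ v : Place k K, Divisorial d v →
      ¬ ((∃ i, v.ord (y i) ≠ v.ord (y 0)) ∨ B v) →
      ∀ j, RegAt v (fun D => jac t D ^ N * f j))
    (a : ℕ) (η : K)
    (hη : ∀ (v : Place k K) (c : ℤ),
      (∀ j, Ge v (-c) (f j)) → Ge v (-(a * c)) η ∧ ∀ i, Ge v (-(a * c) + |v.ord (y i / y 0)|) η)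
    (L : Type) [Field L] [Algebra k L] [Algebra K L] [IsScalarTower k K L]
    (hL : Algebra.trdeg k L = d) (P : Place k L) (hP : Divisorial d P)
    (hnt : ∃ f : K, P.ord (algebraMap K L f) ≠ 0) (j : Fin (d + 1)) (W : ℕ)
    (hW : W = 2 * (N + N * a)) (D : Fin d → Derivation k L L) :
    ((∀ i, DerLog P (D i)) → P.Reg (algebraMap K L (f j * ((∏ b, t b)⁻¹) ^ (N + N * a) * η) *
      jac (fun b => algebraMap K L (t b)) D ^ W)) ∧
    ((∀ i, DerReg P (D i)) → (((∀ i, P.ord (algebraMap K L (y i)) = P.ord (algebraMap K L (y 0))) ∧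
          ∀ (P0 : Place k K) (s : ℕ), (∀ z : K, P.ord (algebraMap K L z) = s * P0.ord z) → B P0 →
            2 ≤ s) ∨
        ∃ i j, P.ord (algebraMap K L (y i)) + (2 * W : ℕ) ≤ P.ord (algebraMap K L (y j))) →
      P.Reg (algebraMap K L (f j * ((∏ b, t b)⁻¹) ^ (N + N * a) * η) *
        jac (fun b => algebraMap K L (t b)) D ^ W)) := by
  classical
  obtain ⟨e, v, hov⟩ := exists_over (K := K) P hnt
  have hv : Divisorial d v := Pool.Agent.W419.PG.main k K L d d v P e htr hL hov hP
  obtain ⟨κ, ⟨D1, hD1, hJ1, ho1⟩, ⟨D2, hD2, hJ2, ho2⟩, hest⟩ := kap htr t ht v hv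
  obtain ⟨hRD, hLD⟩ := hest L P e hov D
  have he : (1 : ℤ) ≤ e := by exact_mod_cast hov.1
  have hy' : ∀ i, y i / y 0 ≠ 0 := fun i => div_ne_zero (hy i) (hy 0)
  have ht0 : ∀ b, t b ≠ 0 := by
    intro b
    obtain ⟨i, hi⟩ := hty b
    rw [hi]
    exact hy' i
  set T : ℤ := ∑ b, v.ord (t b) with hT
  have hτ : Ge v (-T) (∏ b, t b)⁻¹ := by
    right
    rw [v.ord_inv]
    have h1 : v.ord (∏ b, t b) = T := by
      rw [hT]
      have h2 : ∀ s : Finset (Fin d), v.ord (∏ b ∈ s, t b) = ∑ b ∈ s, v.ord (t b) := by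
        intro s
        induction s using Finset.induction_on with
        | empty => simp [v.ord_one]
        | insert b s hb ih =>
          rw [Finset.prod_insert hb, Finset.sum_insert hb,
            v.ord_mul (ht0 b) (Finset.prod_ne_zero_iff.2 fun i _ => ht0 i), ih]
      exact h2 Finset.univ
    rw [h1]
  -- the estimates at `v`
  have F1 : ∀ j, Ge v (-(N * (κ + 1))) (f j) := by
    intro j
    have h1 := hlog v hv j D2 hD2
    change Ge v 0 (jac t D2 ^ N * f j) at h1
    have h2 : v.ord (jac t D2 ^ N) = N * (κ + 1) := by rw [v.ord_pow, ho2]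
    have h3 := Ge.of_mul (pow_ne_zero N hJ2) h1
    rw [h2] at h3
    simpa using h3
  have F2 : ¬ ((∃ i, v.ord (y i) ≠ v.ord (y 0)) ∨ B v) →
      ∀ j, Ge v (-(N * κ)) (f j) := by
    intro hb j
    have h1 := hreg v hv hb j D1 hD1
    change Ge v 0 (jac t D1 ^ N * f j) at h1
    have h2 : v.ord (jac t D1 ^ N) = N * κ := by rw [v.ord_pow, ho1]
    have h3 := Ge.of_mul (pow_ne_zero N hJ1) h1
    rw [h2] at h3
    simpa using h3
  have F3 : T ≤ κ + 1 := by
    have h1 : Ge v T (jac t D2) := ge_det_col v _ (fun b => v.ord (t b)) fun i b =>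
      ge_der_log (hD2 i) (ge_ord v (t b))
    have h2 := h1.resolve_left hJ2
    rwa [ho2] at h2
  have F4 : (∀ b, v.ord (t b) = 0) → 0 ≤ κ := by
    intro h0
    have h1 : Ge v (∑ _b : Fin d, (0 : ℤ)) (jac t D1) := ge_det_col v _ (fun _ => (0 : ℤ))
      fun i b => hD1 i _ (Or.inr (h0 b).ge)
    have h2 := h1.resolve_left hJ1
    rw [ho1] at h2
    simpa using h2
  have hyo : ∀ i, v.ord (y i / y 0) = v.ord (y i) - v.ord (y 0) := fun i =>
    v.ord_div (hy i) (hy 0)
  -- the estimate of the coefficient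
  have hcoef : ∀ (c r : ℤ), (∀ j, Ge v (-c) (f j)) → Ge v (-(a * c) + r) η →
      Ge P (e * (-c + (N + N * a : ℕ) * (-T) + (-(a * c) + r)))
        (algebraMap K L (f j * ((∏ b, t b)⁻¹) ^ (N + N * a) * η)) := by
    intro c r h1 h2
    exact over_ge hov (((h1 j).mul (hτ.pow _)).mul h2)
  have hW' : (W : ℤ) = 2 * (N + N * a) := by rw [hW]; push_cast; ring
  have hN0 : (0 : ℤ) ≤ N := Int.natCast_nonneg N
  have ha0 : (0 : ℤ) ≤ a := Int.natCast_nonneg a
  have hNa : (0 : ℤ) ≤ N + N * a := by positivity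
  constructor
  · intro hD
    refine reg_prod (hcoef (N * (κ + 1)) 0 F1 (by
      rw [add_zero]; exact (hη v _ F1).1)) (hLD hD) ?_
    rw [hW']
    push_cast
    have h1 : (0 : ℤ) ≤ e * ((N + N * a) * (κ + 1 - T)) :=
      mul_nonneg (by linarith) (mul_nonneg hNa (by linarith))
    linarith
  · intro hD hB
    obtain ⟨hR1, hR2⟩ := hRD hD
    rcases hB with ⟨hBy, hBG⟩ | ⟨i, i', hii⟩
    · have hyv : ∀ i, v.ord (y i) = v.ord (y 0) := by
        intro i
        have h1 := hBy i
        rw [hov.2, hov.2] at h1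
        exact mul_left_cancel₀ (by omega) h1
      have ht1 : ∀ b, v.ord (t b) = 0 := by
        intro b
        obtain ⟨i, hi⟩ := hty b
        rw [hi, hyo, hyv i, sub_self]
      have hT0 : T = 0 := Finset.sum_eq_zero fun b _ => ht1 b
      have hκ := F4 ht1
      by_cases hG : B v
      · have he2 : (2 : ℤ) ≤ e := by
          exact_mod_cast hBG v e (fun z => hov.2 z) hG
        refine reg_prod (hcoef (N * (κ + 1)) 0 F1 (by
          rw [add_zero]; exact (hη v _ F1).1)) hR2 ?_
        rw [hW', hT0]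
        push_cast
        have h1 : (2 : ℤ) ≤ e * (κ + 1) := by nlinarith
        have h2 : (0 : ℤ) ≤ (N + N * a) * (e * (κ + 1) - 2) :=
          mul_nonneg hNa (by linarith)
        linarith
      · have hnb : ¬ ((∃ i, v.ord (y i) ≠ v.ord (y 0)) ∨ B v) := by
          rintro (⟨i, hi⟩ | h)
          · exact hi (hyv i)
          · exact hG h
        have F2' := F2 hnb
        refine reg_prod (hcoef (N * κ) 0 F2' (by
          rw [add_zero]; exact (hη v _ F2').1)) hR1 ?_
        rw [hW', hT0]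
        push_cast
        have h2 : (0 : ℤ) ≤ (N + N * a) * (e * κ) :=
          mul_nonneg hNa (mul_nonneg (by linarith) hκ)
        linarith
    · rw [hov.2, hov.2] at hii
      push_cast at hii
      have hbig : ∃ i0, (W : ℤ) ≤ e * |v.ord (y i0 / y 0)| := by
        by_contra hcon
        push Not at hcon
        have h1 := hcon i
        have h2 := hcon i'
        rw [hyo] at h1 h2
        have h3 : v.ord (y i') - v.ord (y 0) ≤ |v.ord (y i') - v.ord (y 0)| := le_abs_self _
        have h4 : -(v.ord (y i) - v.ord (y 0)) ≤ |v.ord (y i) - v.ord (y 0)| := neg_le_abs _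
        have h5 : (e : ℤ) * (v.ord (y i') - v.ord (y 0)) ≤ e * |v.ord (y i') - v.ord (y 0)| :=
          mul_le_mul_of_nonneg_left h3 (by linarith)
        have h6 : (e : ℤ) * -(v.ord (y i) - v.ord (y 0)) ≤ e * |v.ord (y i) - v.ord (y 0)| :=
          mul_le_mul_of_nonneg_left h4 (by linarith)
        linarith
      obtain ⟨i0, hi0⟩ := hbig
      refine reg_prod (hcoef (N * (κ + 1)) _ F1 ((hη v _ F1).2 i0)) hR2 ?_
      rw [hW'] at hi0 ⊢
      push_cast
      have h1 : (0 : ℤ) ≤ e * ((N + N * a) * (κ + 1 - T)) :=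
        mul_nonneg (by linarith) (mul_nonneg hNa (by linarith))
      linarith

theorem t_lgtG : Pool.Agent.Y192.KC.St_lgtG := by
  intro K _ _ _ n d y B hd hy halg hgt
  classical
  obtain ⟨htr, N, hN, ω, hω, hlog, hreg, D0, hD0, hind⟩ := hgt
  -- a transcendence basis among the ratios
  obtain ⟨t, ht, hty⟩ : ∃ t : Fin d → K, IsTranscendenceBasis ℂ t ∧ ∀ b, ∃ i, t b = y i / y 0 := by
    have h1 : Algebra.IsAlgebraic
        (IntermediateField.adjoin ℂ (Set.range fun i => y i / y 0)) K := ⟨halg⟩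
    have h2 := alg_adjoin h1
    obtain ⟨B, hB, hBb⟩ := exists_isTranscendenceBasis_subset (R := ℂ) (A := K)
      (Set.range fun i => y i / y 0)
    have hcard := hBb.cardinalMk_eq_trdeg
    rw [htr] at hcard
    obtain ⟨φ⟩ : Nonempty (Fin d ≃ B) := by
      rw [← Cardinal.eq, Cardinal.mk_fin]
      exact hcard.symm
    refine ⟨fun i => (φ i : K), hBb.comp_equiv φ, fun b => ?_⟩
    obtain ⟨i, hi⟩ := hB (φ b).2
    exact ⟨i, hi.symm⟩
  choose Et hEt using fun i => exists_der t ht (fun j => if i = j then (1 : K) else 0)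
  have hdual : Dual t Et := ⟨ht, hEt⟩
  set f : Fin (d + 1) → K := fun j => ω j Et with hf
  have hωf : ∀ j, ω j = fun D => jac t D ^ N * f j := by
    intro j
    funext D
    have h1 := hω j (Matrix.of fun i j => D i (t j)) Et
    have h2 : (fun i => ∑ j, (Matrix.of fun i j => D i (t j)) i j • Et j) = D := by
      funext i
      exact (hdual.expand (D i)).symm
    rw [h2] at h1
    exact h1
  have hf0 : f 0 ≠ 0 := by
    intro h0
    apply hD0
    rw [hωf 0]
    simp only [h0, mul_zero]
  have hJ0 : jac t D0 ^ N ≠ 0 := by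
    intro h0
    apply hD0
    rw [hωf 0]
    simp only [h0, zero_mul]
  have hratio : (fun i : Fin d => ω i.succ D0 / ω 0 D0) = fun i : Fin d => f i.succ / f 0 := by
    funext i
    rw [hωf 0, hωf i.succ]
    simp only
    rw [mul_div_mul_left _ _ hJ0]
  rw [hratio] at hind
  have hbasis : IsTranscendenceBasis ℂ (fun i : Fin d => f i.succ / f 0) := by
    refine hind.isTranscendenceBasis_of_lift_trdeg_le_of_finite ?_
    rw [htr]
    simp
  have halg2 : Algebra.IsAlgebraic
      (IntermediateField.adjoin ℂ (Set.range fun i : Fin d => f i.succ / f 0)) K :=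
    hbasis.isAlgebraic_field
  obtain ⟨a, η, hη0, hη⟩ := rel_all (k := ℂ) hf0 (fun i => y i / y 0)
    (fun i => div_ne_zero (hy i) (hy 0)) (fun i => halg2.isAlgebraic _)
  set W : ℕ := 2 * (N + N * a) with hW
  refine ⟨2 * W, ?_⟩
  intro L _ _ _ _ _ _ Bd hBd
  have htL : IsTranscendenceBasis ℂ (fun j => algebraMap K L (t j)) := ht.algebraMap_comp
  have hLtr : Algebra.trdeg ℂ L = d := by
    have h1 := htL.lift_cardinalMk_eq_trdeg
    simpa using h1.symm
  have ht0 : ∀ b, t b ≠ 0 := by
    intro b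
    obtain ⟨i, hi⟩ := hty b
    rw [hi]
    exact div_ne_zero (hy i) (hy 0)
  have hloc := fun (P : Place ℂ L) (hP : Divisorial d P) (j : Fin (d + 1)) => lgt_local y B hy htr
    f t ht hty (N := N) (fun v hv j => by
      have := hlog v hv j
      rwa [hωf j] at this) (fun v hv hb j => by
      have := hreg v hv hb j
      rwa [hωf j] at this) a η hη L hLtr P hP (by
      by_contra hcon
      push Not at hcon
      obtain ⟨s, hs0, hs⟩ := P.surj
      have h1 := Pool.Agent.W619.PQ.ord_eq_zero_of_alg (K0 := K) (K1 := L) (K2 := L) P hcon s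
      have h2 : algebraMap L L s = s := rfl
      rw [h2, hs] at h1
      exact one_ne_zero h1) j W hW
  have hτ0 : ((∏ b, t b)⁻¹) ^ (N + N * a) ≠ 0 :=
    pow_ne_zero _ (inv_ne_zero (Finset.prod_ne_zero_iff.2 fun b _ => ht0 b))
  refine ⟨hLtr, W, by positivity, fun j D => algebraMap K L
    (f j * ((∏ b, t b)⁻¹) ^ (N + N * a) * η) * jac (fun b => algebraMap K L (t b)) D ^ W,
    fun j A D => ?_, fun P hP j D hD => (hloc P hP j D).1 hD, fun P hP hB j D hD =>
      (hloc P hP j D).2 hD (hBd P hB), ?_⟩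
  · simp only
    rw [jac_smul, mul_pow]
    ring
  · choose EL hEL using fun i => exists_der (fun j => algebraMap K L (t j)) htL
      (fun j => if i = j then (1 : L) else 0)
    have hJ : jac (fun b => algebraMap K L (t b)) EL = 1 := by
      unfold jac
      have h2 : (Matrix.of fun i j => EL i (algebraMap K L (t j))) =
          (1 : Matrix (Fin d) (Fin d) L) := by
        ext i j
        rw [Matrix.of_apply, hEL, Matrix.one_apply]
      rw [h2, Matrix.det_one]
    refine ⟨EL, ?_, ?_⟩
    · simp only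
      rw [hJ, one_pow, mul_one]
      exact (map_ne_zero _).2 (mul_ne_zero (mul_ne_zero hf0 hτ0) hη0)
    · have h1 : (fun i : Fin d => (algebraMap K L
          (f i.succ * ((∏ b, t b)⁻¹) ^ (N + N * a) * η) *
            jac (fun b => algebraMap K L (t b)) EL ^ W) / (algebraMap K L
          (f 0 * ((∏ b, t b)⁻¹) ^ (N + N * a) * η) *
            jac (fun b => algebraMap K L (t b)) EL ^ W)) =
          (IsScalarTower.toAlgHom ℂ K L) ∘ fun i : Fin d => f i.succ / f 0 := by
        funext i
        rw [hJ, one_pow, mul_one, mul_one, ← map_div₀]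
        change _ = algebraMap K L _
        rw [mul_div_mul_right _ _ hη0, mul_div_mul_right _ _ hτ0]
      simp only
      rw [h1]
      exact hind.map' (f := IsScalarTower.toAlgHom ℂ K L) (algebraMap K L).injective

end Pool.Agent.Y547.KZ
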